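import Pool.Agent.Helper95_CM.StF

/-! Module EE of the CM project (MP_31342c_an). -/

set_option autoImplicit false

namespace Pool.Agent.Helper95_CM.H77

/-- factorials divide powers of `p` in the `p`-adic integers -/
theorem fac_dvd (p : ℕ) [hp : Fact p.Prime] (h3 : 3 ≤ p) (j : ℕ) :
    ∃ (a : ℕ) (u : ℤ_[p]ˣ), (j.factorial : ℤ_[p]) = (p : ℤ_[p]) ^ a * u ∧ a ≤ j ∧
      (j ≠ 0 → 2 * a < j) := by
  obtain ⟨m, hm, hfac⟩ : ∃ m, ¬ p ∣ m ∧ j.factorial = p ^ (padicValNat p j.factorial) * m := by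
    obtain ⟨m, hm⟩ := pow_padicValNat_dvd (p := p) (n := j.factorial)
    refine ⟨m, ?_, hm⟩
    intro hd
    have h1 : p ^ (padicValNat p j.factorial + 1) ∣ j.factorial := by
      conv_rhs => rw [hm]
      rw [pow_succ]
      exact Nat.mul_dvd_mul_left _ hd
    exact pow_succ_padicValNat_not_dvd (Nat.factorial_ne_zero j) h1
  have hu : IsUnit (m : ℤ_[p]) := by
    rw [PadicInt.isUnit_iff]
    by_contra h
    have h1 : ‖((m : ℤ) : ℤ_[p])‖ < 1 := by
      refine lt_of_le_of_ne (PadicInt.norm_le_one _) ?_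
      simpa using h
    rw [PadicInt.norm_intCast_lt_one_iff] at h1
    exact hm (by exact_mod_cast h1)
  obtain ⟨u, hu⟩ := hu
  refine ⟨padicValNat p j.factorial, u, ?_, padicValNat_factorial_le p j, ?_⟩
  · rw [hu]
    have : ((j.factorial : ℕ) : ℤ_[p]) = ((p ^ (padicValNat p j.factorial) * m : ℕ) : ℤ_[p]) := by
      rw [← hfac]
    rw [this]
    push_cast
    ring
  · intro hj
    have h1 := sub_one_mul_padicValNat_factorial_lt_of_ne_zero p hj
    have h2 : 2 * padicValNat p j.factorial ≤ (p - 1) * padicValNat p j.factorial :=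
      Nat.mul_le_mul_right _ (by omega)
    omega

/-- EE -/
theorem ee' : EeStmt := by
  intro p hp h3
  have hp0 : (p : ℤ_[p]) ≠ 0 := by
    exact_mod_cast hp.out.ne_zero
  have hex : ∀ j, ∃ z : ℤ_[p], (j.factorial : ℤ_[p]) * z = (-(p : ℤ_[p])) ^ j := by
    intro j
    obtain ⟨a, u, h1, h2, -⟩ := fac_dvd p h3 j
    refine ⟨((u⁻¹ : ℤ_[p]ˣ) : ℤ_[p]) * (-1) ^ j * (p : ℤ_[p]) ^ (j - a), ?_⟩
    rw [h1]
    have h4 : (u : ℤ_[p]) * ((u⁻¹ : ℤ_[p]ˣ) : ℤ_[p]) = 1 := u.mul_inv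
    have h5 : (p : ℤ_[p]) ^ a * (p : ℤ_[p]) ^ (j - a) = (p : ℤ_[p]) ^ j := by
      rw [← pow_add]
      congr 1
      omega
    calc (p : ℤ_[p]) ^ a * u * (((u⁻¹ : ℤ_[p]ˣ) : ℤ_[p]) * (-1) ^ j * (p : ℤ_[p]) ^ (j - a))
        = ((u : ℤ_[p]) * ((u⁻¹ : ℤ_[p]ˣ) : ℤ_[p])) * (-1) ^ j *
          ((p : ℤ_[p]) ^ a * (p : ℤ_[p]) ^ (j - a)) := by ring
      _ = (-(p : ℤ_[p])) ^ j := by rw [h4, h5, one_mul, neg_pow (p : ℤ_[p])]
  have key : ∀ j, (j.factorial : ℤ_[p]) * ee p j = (-(p : ℤ_[p])) ^ j := by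
    intro j
    unfold ee
    rw [dif_pos (hex j)]
    exact (hex j).choose_spec
  have hfac : ∀ j : ℕ, (j.factorial : ℤ_[p]) ≠ 0 := fun j => by
    exact_mod_cast Nat.factorial_ne_zero j
  have hdiv : ∀ N j, 2 * N ≤ j + 1 → (p : ℤ_[p]) ^ N ∣ ee p j := by
    intro N j hN
    by_cases hj : j = 0
    · have : N = 0 := by omega
      rw [this, pow_zero]
      exact one_dvd _
    obtain ⟨a, u, h1, h2, h3'⟩ := fac_dvd p h3 j
    have h4 := h3' hj
    have h5 := key j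
    rw [h1] at h5
    have h6 : (-(p : ℤ_[p])) ^ j = (p : ℤ_[p]) ^ a * ((-1) ^ j * (p : ℤ_[p]) ^ (j - a)) := by
      rw [neg_pow (p : ℤ_[p])]
      have h5 : (p : ℤ_[p]) ^ a * (p : ℤ_[p]) ^ (j - a) = (p : ℤ_[p]) ^ j := by
        rw [← pow_add]
        congr 1
        omega
      rw [← h5]
      ring
    rw [h6, mul_assoc] at h5
    have h7 := mul_left_cancel₀ (pow_ne_zero a hp0) h5
    have h8 : (p : ℤ_[p]) ^ (j - a) ∣ (u : ℤ_[p]) * ee p j := by
      rw [h7]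
      exact dvd_mul_left _ _
    have h9 : (p : ℤ_[p]) ^ (j - a) ∣ ee p j := (u.isUnit.dvd_mul_left).1 h8
    exact (pow_dvd_pow _ (by omega)).trans h9
  refine ⟨?_, key, ?_, ?_, hdiv⟩
  · have := key 0
    simpa using this
  · intro j
    have h1 := key (j + 1)
    have h2 := key j
    refine mul_left_cancel₀ (hfac j) ?_
    rw [Nat.factorial_succ] at h1
    push_cast at h1
    calc (j.factorial : ℤ_[p]) * (((j : ℤ_[p]) + 1) * ee p (j + 1))
        = ((j : ℤ_[p]) + 1) * (j.factorial : ℤ_[p]) * ee p (j + 1) := by ring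
      _ = -(p : ℤ_[p]) * ((j.factorial : ℤ_[p]) * ee p j) := by
        rw [h1, h2, pow_succ]
        ring
      _ = _ := by ring
  · intro j hj
    have := hdiv 1 j (by omega)
    simpa using this

end Pool.Agent.Helper95_CM.H77
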