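import Pool.Agent.Helper95_CM.StF

/-! Module GAM of the CM project (MP_31342c_an). -/

set_option autoImplicit false

namespace Pool.Agent.Helper95_CM.H77

theorem mm_mul_add {p : ℕ} (hp : 0 < p) (m r : ℕ) (hr : r < p) :
    mm p (p * m + r + 1) = m + 1 := by
  unfold mm
  have h1 : p * m + r + 1 + p - 1 = r + p * (m + 1) := by
    have : 1 ≤ p := hp
    rw [mul_add, mul_one]
    omega
  rw [h1, Nat.add_mul_div_left _ _ hp, Nat.div_eq_of_lt hr, zero_add]

theorem mm_zero {p : ℕ} (hp : 0 < p) : mm p 0 = 0 := by
  unfold mm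
  exact Nat.div_eq_of_lt (by omega)

theorem mm_mul {p : ℕ} (hp : 0 < p) (m : ℕ) : mm p (p * m) = m := by
  rcases Nat.eq_zero_or_pos m with rfl | hm
  · rw [mul_zero, mm_zero hp]
  · obtain ⟨k, rfl⟩ : ∃ k, m = k + 1 := ⟨m - 1, by omega⟩
    have h1 : p * (k + 1) = p * k + (p - 1) + 1 := by
      rw [mul_add, mul_one]
      omega
    rw [h1]
    exact mm_mul_add hp k (p - 1) (by omega)

theorem mm_le {p l : ℕ} (hp : 0 < p) (hl : 1 ≤ l) : 1 ≤ mm p l ∧ mm p l ≤ l ∧ l ≤ p * mm p l := by
  have h0 := Nat.div_add_mod (l - 1) p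
  have h1 := Nat.mod_lt (l - 1) hp
  have h4 : (l - 1) / p ≤ l - 1 := Nat.div_le_self _ _
  generalize (l - 1) / p = q at h0 h4
  generalize (l - 1) % p = r at h0 h1
  have h2 : l = p * q + r + 1 := by omega
  have h3 : mm p l = q + 1 := by
    rw [h2]
    exact mm_mul_add hp _ _ h1
  rw [h3, mul_add, mul_one]
  refine ⟨by omega, by omega, by omega⟩

/-- the product formula for factorials -/
theorem fac_mul {p : ℕ} (hp : p.Prime) (l : ℕ) :
    ∃ B, ¬ p ∣ B ∧ (p * (l + 1) - 1).factorial = p ^ l * l.factorial * B := by
  have hasc : ∀ (a k : ℕ), k < p → ∃ B, ¬ p ∣ B ∧ (p * a + k).factorial = (p * a).factorial * B := by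
    intro a k
    induction k with
    | zero =>
      intro _
      exact ⟨1, by simpa using hp.one_lt.ne', by simp⟩
    | succ k ih =>
      intro hk
      obtain ⟨B, hB, h⟩ := ih (by omega)
      refine ⟨(p * a + k + 1) * B, ?_, ?_⟩
      · intro hd
        rcases (Nat.Prime.dvd_mul hp).1 hd with h1 | h1
        · have h2 : p ∣ k + 1 := by
            rw [add_assoc] at h1
            exact (Nat.dvd_add_right (Dvd.intro _ rfl)).1 h1
          exact absurd (Nat.le_of_dvd (by omega) h2) (by omega)
        · exact hB h1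
      · rw [← add_assoc, Nat.factorial_succ, h]
        ring
  induction l with
  | zero =>
    obtain ⟨B, hB, h⟩ := hasc 0 (p - 1) (by have := hp.pos; omega)
    refine ⟨B, hB, ?_⟩
    simpa using h
  | succ l ih =>
    obtain ⟨B, hB, h⟩ := ih
    obtain ⟨B', hB', h'⟩ := hasc (l + 1) (p - 1) (by have := hp.pos; omega)
    have hpos := hp.pos
    refine ⟨B * B', fun hd => ?_, ?_⟩
    · rcases (Nat.Prime.dvd_mul hp).1 hd with h1 | h1
      · exact hB h1
      · exact hB' h1
    · have e1 : p * (l + 1 + 1) - 1 = p * (l + 1) + (p - 1) := by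
        have : p * (l + 1 + 1) = p * (l + 1) + p := by ring
        omega
      have e2 : p * (l + 1) = (p * (l + 1) - 1) + 1 := by
        have : 0 < p * (l + 1) := Nat.mul_pos hpos (Nat.succ_pos _)
        omega
      have e3 : (p * (l + 1)).factorial = p * (l + 1) * (p * (l + 1) - 1).factorial := by
        rw [e2, Nat.factorial_succ]
        simp
      rw [e1, h', e3, h, Nat.factorial_succ, pow_succ]
      ring

/-- GAM -/
theorem gam' : GamStmt := by
  intro p hp h3
  have hpos := hp.pos
  have hmm1 : mm p 1 = 1 := by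
    have := mm_mul_add hpos 0 0 hpos
    simpa using this
  have hg1 : gam p 1 = p := by
    unfold gam
    rw [hmm1]
    simp
  have hgm : ∀ m, 1 ≤ m → gam p (p * m) = p * ((p * m - 1).factorial / (m - 1).factorial) := by
    intro m hm
    unfold gam
    rw [if_neg, mm_mul hpos]
    exact (Nat.mul_pos hpos hm).ne'
  refine ⟨by simp [gam], hg1, mm_zero hpos, ?_, ?_, ?_, ?_, ?_⟩
  · intro l hl hpl
    have h0 := Nat.div_add_mod (l - 1) p
    have h1 := Nat.mod_lt (l - 1) hpos
    have h2 : l = p * ((l - 1) / p) + (l - 1) % p + 1 := by omega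
    have hr : (l - 1) % p + 1 < p := by
      by_contra hc
      have h4 : (l - 1) % p = p - 1 := by omega
      apply hpl
      refine ⟨(l - 1) / p + 1, ?_⟩
      rw [mul_add, mul_one]
      omega
    have e1 : mm p l = (l - 1) / p + 1 := by
      conv_lhs => rw [h2]
      exact mm_mul_add hpos _ _ h1
    have e2 : mm p (l + 1) = (l - 1) / p + 1 := by
      have h5 : l + 1 = p * ((l - 1) / p) + ((l - 1) % p + 1) + 1 := by omega
      conv_lhs => rw [h5]
      exact mm_mul_add hpos _ _ hr
    refine ⟨?_, by rw [e1, e2], ?_⟩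
    · unfold gam
      rw [if_neg (by omega), if_neg (by omega), e1, e2]
      have h6 : ((l - 1) / p + 1 - 1).factorial ∣ (l - 1).factorial :=
        Nat.factorial_dvd_factorial (by
          have : (l - 1) / p ≤ l - 1 := Nat.div_le_self _ _
          omega)
      have h7 : (l + 1 - 1).factorial = l * (l - 1).factorial := by
        obtain ⟨k, rfl⟩ : ∃ k, l = k + 1 := ⟨l - 1, by omega⟩
        rw [Nat.add_sub_cancel, Nat.factorial_succ]
        simp
      rw [h7, Nat.mul_div_assoc _ h6]
      ring
    · rw [e1, mul_add, mul_one]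
      omega
  · intro m
    refine ⟨?_, mm_mul hpos m, ?_⟩
    · rcases Nat.eq_zero_or_pos m with rfl | hm
      · rw [mul_zero, zero_add, hg1]
        simp [gam]
      · rw [hgm m hm]
        have e1 : mm p (p * m + 1) = m + 1 := by
          have := mm_mul_add hpos m 0 hpos
          simpa using this
        have hd : (m - 1).factorial ∣ (p * m - 1).factorial := by
          apply Nat.factorial_dvd_factorial
          have : m ≤ p * m := Nat.le_mul_of_pos_left m hpos
          omega
        unfold gam
        rw [if_neg (by omega), e1, Nat.add_sub_cancel, Nat.add_sub_cancel]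
        obtain ⟨c, hc⟩ := hd
        have e2 : (p * m).factorial = p * m * (p * m - 1).factorial := by
          have h5 : 0 < p * m := Nat.mul_pos hpos hm
          conv_lhs => rw [show p * m = (p * m - 1) + 1 by omega]
          rw [Nat.factorial_succ]
          congr 1
          omega
        have e3 : m.factorial = m * (m - 1).factorial := by
          conv_lhs => rw [show m = (m - 1) + 1 by omega]
          rw [Nat.factorial_succ]
          congr 1
          omega
        rw [hc, Nat.mul_div_cancel_left _ (Nat.factorial_pos _)]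
        congr 1
        rw [e2, hc]
        apply Nat.div_eq_of_eq_mul_left (Nat.factorial_pos _)
        rw [e3]
        ring
    · have := mm_mul_add hpos m 0 hpos
      simpa using this
  · intro l
    rcases Nat.eq_zero_or_pos l with rfl | hl
    · simp only [mul_zero, pow_zero, one_mul]
      refine ⟨by simp [gam, uu], ?_⟩
      simpa [uu] using hp.one_lt.ne'
    · obtain ⟨k, rfl⟩ : ∃ k, l = k + 1 := ⟨l - 1, by omega⟩
      obtain ⟨B, hB, h⟩ := fac_mul hp k
      have e1 : uu p (k + 1) = B := by
        unfold uu
        rw [if_neg (by omega), Nat.add_sub_cancel, h]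
        exact Nat.mul_div_cancel_left _ (Nat.mul_pos (pow_pos hpos _) (Nat.factorial_pos _))
      rw [e1]
      refine ⟨?_, hB⟩
      rw [hgm _ (by omega), Nat.add_sub_cancel, h]
      have e2 : p ^ k * k.factorial * B = k.factorial * (p ^ k * B) := by ring
      rw [e2, Nat.mul_div_cancel_left _ (Nat.factorial_pos _), pow_succ]
      ring
  · intro l
    rcases Nat.eq_zero_or_pos l with rfl | hl
    · exact Nat.zero_le _
    · exact (mm_le hpos hl).2.2
  · intro l hl hlp
    have := mm_mul_add hpos 0 (l - 1) (by omega)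
    rw [mul_zero, zero_add, zero_add] at this
    rwa [show l - 1 + 1 = l by omega] at this

end Pool.Agent.Helper95_CM.H77
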