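import Pool.Agent.Helper95_CM.Ser

/-! Lemmas on Hahn series for the CM project (MP_31342c_an). -/

set_option autoImplicit false

noncomputable section

namespace Pool.Agent.Helper95_CM.H77

open HahnSeries
open scoped Pointwise

section General

variable {G : Type} [AddCommGroup G] [LinearOrder G] [IsOrderedAddMonoid G]

theorem coeff_mul_both {R : Type} [CommRing R] {x y : HahnSeries G R} {s t : Set G}
    (hs : s.IsPWO) (ht : t.IsPWO) (hx : x.support ⊆ s) (hy : y.support ⊆ t) (a : G) :
    (x * y).coeff a = ∑ ij ∈ Finset.antidiagonal hs ht a, x.coeff ij.1 * y.coeff ij.2 := by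
  rw [HahnSeries.coeff_mul_left' hs hx]
  refine Finset.sum_subset ?_ ?_
  · intro ij hij
    rw [Finset.mem_antidiagonal] at hij ⊢
    exact ⟨hij.1, hy hij.2.1, hij.2.2⟩
  · intro ij hij hn
    rw [Finset.mem_antidiagonal] at hij hn
    have : y.coeff ij.2 = 0 := by
      by_contra h
      exact hn ⟨hij.1, h, hij.2.2⟩
    rw [this, mul_zero]

theorem hmap_id {R : Type} [CommRing R] (x : HahnSeries G R) : hmap (RingHom.id R) x = x := by
  ext g
  simp

theorem hmap_comp {R S T : Type} [CommRing R] [CommRing S] [CommRing T] (f : R →+* S)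
    (g : S →+* T) (x : HahnSeries G R) : hmap g (hmap f x) = hmap (g.comp f) x := by
  ext a
  simp

theorem hmap_hphi {R S : Type} [CommRing R] [CommRing S] (f : R →+* S) {p : ℕ} (hp : 0 < p)
    (x : HahnSeries G R) : hmap f (hphi R p x) = hphi S p (hmap f x) := by
  ext g
  by_cases h : ∃ g', p • g' = g
  · obtain ⟨g', rfl⟩ := h
    rw [hmap_coeff, hphi_coeff hp, hphi_coeff hp, hmap_coeff]
  · push Not at h
    rw [hmap_coeff, hphi_coeff_ne hp _ _ h, hphi_coeff_ne hp _ _ h, map_zero]

theorem hmap_hw {R S : Type} [CommRing R] [CommRing S] (f : R →+* S) (e : G →+ ℤ)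
    (x : HahnSeries G R) : hmap f (hw e x) = hw e (hmap f x) := by
  ext g
  simp

theorem hw_hphi {R : Type} [CommRing R] (e : G →+ ℤ) {p : ℕ} (hp : 0 < p)
    (x : HahnSeries G R) : hw e (hphi R p x) = (p : HahnSeries G R) * hphi R p (hw e x) := by
  ext g
  rw [← nsmul_eq_mul, HahnSeries.coeff_nsmul, Pi.smul_apply, nsmul_eq_mul]
  by_cases h : ∃ g', p • g' = g
  · obtain ⟨g', rfl⟩ := h
    rw [hw_coeff, hphi_coeff hp, hphi_coeff hp, hw_coeff, map_nsmul, nsmul_eq_mul, Int.cast_mul,
      Int.cast_natCast, mul_assoc]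
  · push Not at h
    rw [hw_coeff, hphi_coeff_ne hp _ _ h, hphi_coeff_ne hp _ _ h, mul_zero, mul_zero]

theorem hw_mul {R : Type} [CommRing R] (e : G →+ ℤ) (x y : HahnSeries G R) :
    hw e (x * y) = hw e x * y + x * hw e y := by
  ext g
  have h1 : (hw e x).support ⊆ x.support := by
    intro a ha h
    exact ha (by rw [hw_coeff, h, mul_zero])
  have h2 : (hw e y).support ⊆ y.support := by
    intro a ha h
    exact ha (by rw [hw_coeff, h, mul_zero])
  rw [hw_coeff, HahnSeries.coeff_add', Pi.add_apply, HahnSeries.coeff_mul,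
    coeff_mul_both x.isPWO_support y.isPWO_support h1 subset_rfl,
    coeff_mul_both x.isPWO_support y.isPWO_support subset_rfl h2, Finset.mul_sum,
    ← Finset.sum_add_distrib]
  refine Finset.sum_congr rfl fun ij hij => ?_
  rw [Finset.mem_antidiagonal] at hij
  rw [hw_coeff, hw_coeff, ← hij.2.2, map_add]
  push_cast
  ring

theorem cwA_mul {R : Type} [CommRing R] (d : R →+ R) (hd : ∀ x y, d (x * y) = d x * y + x * d y)
    (x y : HahnSeries G R) :
    cwA d (x * y) = cwA d x * y + x * cwA d y := by
  ext g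
  have h1 : (cwA d x).support ⊆ x.support := by
    intro a ha h
    exact ha (by rw [cwA_coeff, h, map_zero])
  have h2 : (cwA d y).support ⊆ y.support := by
    intro a ha h
    exact ha (by rw [cwA_coeff, h, map_zero])
  rw [cwA_coeff, HahnSeries.coeff_add', Pi.add_apply, HahnSeries.coeff_mul,
    coeff_mul_both x.isPWO_support y.isPWO_support h1 subset_rfl,
    coeff_mul_both x.isPWO_support y.isPWO_support subset_rfl h2, map_sum,
    ← Finset.sum_add_distrib]
  refine Finset.sum_congr rfl fun ij _ => ?_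
  rw [cwA_coeff, cwA_coeff, hd]

/-- projection formula -/
theorem psi_phi_mul {R : Type} [CommRing R] (f : R →+* R) (ψ : R →+ R)
    (h : ∀ a b, ψ (f a * b) = a * ψ b) {p : ℕ} (hp : 0 < p) (x y : HahnSeries G R) :
    hpsi p (cwA ψ (hphi R p (hmap f x) * y)) = x * hpsi p (cwA ψ y) := by
  ext m
  have h1 : (hphi R p (hmap f x)).support ⊆ (hphi R p x).support := by
    intro a ha
    rw [HahnSeries.mem_support] at ha ⊢
    by_cases hh : ∃ g', p • g' = a
    · obtain ⟨g', rfl⟩ := hh
      rw [hphi_coeff hp, hmap_coeff] at ha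
      rw [hphi_coeff hp]
      intro h0
      rw [h0, map_zero] at ha
      exact ha rfl
    · push Not at hh
      exact absurd (hphi_coeff_ne hp _ _ hh) ha
  have h2 : (hpsi p (cwA ψ y)).support ⊆ (hpsi p y).support := by
    intro a ha
    rw [HahnSeries.mem_support] at ha ⊢
    rw [hpsi_coeff hp, cwA_coeff] at ha
    rw [hpsi_coeff hp]
    intro h0
    rw [h0, map_zero] at ha
    exact ha rfl
  rw [hpsi_coeff hp, cwA_coeff,
    coeff_mul_both (hphi R p x).isPWO_support y.isPWO_support h1 subset_rfl,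
    coeff_mul_both x.isPWO_support (hpsi p y).isPWO_support subset_rfl h2, map_sum]
  symm
  refine Finset.sum_bij (fun ij _ => (p • ij.1, p • ij.2)) ?_ ?_ ?_ ?_
  · intro ij hij
    rw [Finset.mem_antidiagonal] at hij ⊢
    refine ⟨?_, ?_, ?_⟩
    · change (hphi R p x).coeff (p • ij.1) ≠ 0
      rw [hphi_coeff hp]
      exact hij.1
    · have := hij.2.1
      rw [HahnSeries.mem_support, hpsi_coeff hp] at this
      exact this
    · rw [← hij.2.2]
      exact (nsmul_add _ _ _).symm
  · intro a _ b _ hab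
    have h3 := congrArg Prod.fst hab
    have h4 := congrArg Prod.snd hab
    exact Prod.ext (smul_pos_inj hp h3) (smul_pos_inj hp h4)
  · intro ij hij
    rw [Finset.mem_antidiagonal] at hij
    obtain ⟨h3, h4, h5⟩ := hij
    have h6 : ∃ g', p • g' = ij.1 := by
      by_contra hh
      push Not at hh
      exact h3 (hphi_coeff_ne hp _ _ hh)
    obtain ⟨g', hg'⟩ := h6
    have h7 : ij.2 = p • (m - g') := by
      rw [nsmul_sub, hg', ← h5]
      abel
    refine ⟨(g', m - g'), ?_, ?_⟩
    · rw [Finset.mem_antidiagonal]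
      refine ⟨?_, ?_, ?_⟩
      · rw [← hg', HahnSeries.mem_support, hphi_coeff hp] at h3
        exact h3
      · rw [HahnSeries.mem_support, hpsi_coeff hp, ← h7]
        exact h4
      · simp
    · exact Prod.ext hg' h7.symm
  · intro ij _
    rw [hphi_coeff hp, hmap_coeff, h, hpsi_coeff hp, cwA_coeff]

/-! ### divisibility -/

theorem natCast_mul_coeff' {R : Type} [CommRing R] (p : ℕ) (x : HahnSeries G R) (g : G) :
    ((p : HahnSeries G R) * x).coeff g = (p : R) * x.coeff g := by
  rw [← nsmul_eq_mul, HahnSeries.coeff_nsmul, Pi.smul_apply, nsmul_eq_mul]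

theorem natPow_mul_coeff {R : Type} [CommRing R] (p N : ℕ) (x : HahnSeries G R) (g : G) :
    ((p : HahnSeries G R) ^ N * x).coeff g = (p : R) ^ N * x.coeff g := by
  have := natCast_mul_coeff' (p ^ N) x g
  push_cast at this
  exact this

theorem pow_dvd_iff {R : Type} [CommRing R] (p N : ℕ) (x : HahnSeries G R) :
    (p : HahnSeries G R) ^ N ∣ x ↔ ∀ g, (p : R) ^ N ∣ x.coeff g := by
  classical
  constructor
  · rintro ⟨y, rfl⟩ g
    exact ⟨y.coeff g, natPow_mul_coeff p N y g⟩
  · intro h
    choose w hw using h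
    refine ⟨{ coeff := fun g => if x.coeff g = 0 then 0 else w g
              isPWO_support' := x.isPWO_support.mono ?_ }, ?_⟩
    · intro g hg h0
      exact hg (if_pos h0)
    · ext g
      rw [natPow_mul_coeff]
      change x.coeff g = (p : R) ^ N * (if x.coeff g = 0 then 0 else w g)
      split_ifs with h0
      · rw [h0, mul_zero]
      · exact hw g

theorem dvd_iff {R : Type} [CommRing R] (p : ℕ) (x : HahnSeries G R) :
    (p : HahnSeries G R) ∣ x ↔ ∀ g, (p : R) ∣ x.coeff g := by
  have := pow_dvd_iff p 1 x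
  simpa using this

theorem tf_of {R : Type} [CommRing R] {p : ℕ} (h : ∀ x : R, (p : R) * x = 0 → x = 0)
    (x : HahnSeries G R) (hx : (p : HahnSeries G R) * x = 0) : x = 0 := by
  ext g
  apply h
  rw [← natCast_mul_coeff', hx]
  simp

/-! ### lifts of Frobenius -/

theorem exists_pow_support {R : Type} [CommRing R] {A : Set G} (hA : A.IsPWO) (k : ℕ) :
    ∃ B : Set G, B.IsPWO ∧ ∀ z : HahnSeries G R, z.support ⊆ A → (z ^ k).support ⊆ B := by
  induction k with
  | zero =>
    refine ⟨{0}, Set.isPWO_singleton 0, fun z _ => ?_⟩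
    rw [pow_zero]
    intro g hg
    rw [HahnSeries.mem_support, HahnSeries.coeff_one] at hg
    by_contra h
    exact hg (if_neg h)
  | succ k ih =>
    obtain ⟨B, hB, h⟩ := ih
    refine ⟨B + A, hB.add hA, fun z hz => ?_⟩
    rw [pow_succ]
    exact HahnSeries.support_mul_subset.trans (Set.add_subset_add (h z hz) hz)

/-- powers of sums -/
theorem sum_pow_dvd {S : Type} [CommRing S] {ι : Type} {p : ℕ} (hp : p.Prime) (s : Finset ι)
    (a : ι → S) : (p : S) ∣ (∑ i ∈ s, a i) ^ p - ∑ i ∈ s, a i ^ p := by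
  classical
  induction s using Finset.induction_on with
  | empty => simp [hp.ne_zero]
  | insert i s hi ih =>
    rw [Finset.sum_insert hi, Finset.sum_insert hi]
    obtain ⟨r, hr⟩ := exists_add_pow_prime_eq hp (a i) (∑ j ∈ s, a j)
    obtain ⟨r', hr'⟩ := ih
    refine ⟨a i * (∑ j ∈ s, a j) * r + r', ?_⟩
    rw [hr, mul_add, ← hr']
    ring

theorem pow_coeff_dvd {R : Type} [CommRing R] {p : ℕ} (hp : p.Prime) (x : HahnSeries G R)
    (g : G) : (∀ g', p • g' = g → (p : R) ∣ (x ^ p).coeff g - (x.coeff g') ^ p) ∧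
      ((∀ g', p • g' ≠ g) → (p : R) ∣ (x ^ p).coeff g) := by
  classical
  obtain ⟨B, hB, hpow⟩ := exists_pow_support (R := R) x.isPWO_support (p - 1)
  -- the finite set of relevant exponents
  set E : Finset G := (Finset.antidiagonal x.isPWO_support hB g).image Prod.fst ∪
    (if h : ∃ g', p • g' = g then {h.choose} else ∅) with hE
  set y : HahnSeries G R := ∑ h ∈ E, HahnSeries.single h (x.coeff h) with hy
  have hyc : ∀ a, y.coeff a = if a ∈ E then x.coeff a else 0 := by
    intro a
    rw [hy, HahnSeries.coeff_sum]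
    simp only [HahnSeries.coeff_single]
    split_ifs with h
    · rw [Finset.sum_eq_single a]
      · rw [if_pos rfl]
      · intro b _ hb
        exact if_neg (Ne.symm hb)
      · intro h'
        exact absurd h h'
    · refine Finset.sum_eq_zero fun b hb => ?_
      rw [if_neg]
      rintro rfl
      exact h hb
  set z := x - y with hz
  have hzc : ∀ a, z.coeff a = if a ∈ E then 0 else x.coeff a := by
    intro a
    rw [hz, HahnSeries.coeff_sub', Pi.sub_apply, hyc]
    split_ifs
    · exact sub_self _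
    · exact sub_zero _
  have hzs : z.support ⊆ x.support := by
    intro a ha h0
    apply ha
    rw [hzc, h0]
    simp
  have hz0 : (z ^ p).coeff g = 0 := by
    have h1 : z ^ p = z * z ^ (p - 1) := by
      rw [← pow_succ']
      congr 1
      have := hp.pos
      omega
    rw [h1, coeff_mul_both x.isPWO_support hB hzs (hpow z hzs)]
    refine Finset.sum_eq_zero fun ij hij => ?_
    have h2 : ij.1 ∈ E := by
      rw [hE]
      exact Finset.mem_union_left _ (Finset.mem_image_of_mem _ hij)
    rw [hzc, if_pos h2, zero_mul]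
  obtain ⟨r, hr⟩ := exists_add_pow_prime_eq hp y z
  obtain ⟨r', hr'⟩ := sum_pow_dvd hp E (fun h => (HahnSeries.single h (x.coeff h) : HahnSeries G R))
  have hyz : y + z = x := by rw [hz]; ring
  rw [hyz] at hr
  have hr'' : x ^ p = (∑ h ∈ E, (HahnSeries.single h (x.coeff h) : HahnSeries G R) ^ p) + z ^ p +
      (p : HahnSeries G R) * (r' + y * z * r) := by
    rw [hr, mul_add, ← hr', hy]
    ring
  have h3 : (x ^ p).coeff g = (∑ h ∈ E, (HahnSeries.single h (x.coeff h) : HahnSeries G R) ^ p).coeff g
      + (p : R) * (r' + y * z * r).coeff g := by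
    rw [hr'', HahnSeries.coeff_add', HahnSeries.coeff_add', Pi.add_apply, Pi.add_apply, hz0,
      add_zero, natCast_mul_coeff']
  have h4 : (∑ h ∈ E, (HahnSeries.single h (x.coeff h) : HahnSeries G R) ^ p).coeff g =
      ∑ h ∈ E, if g = p • h then x.coeff h ^ p else 0 := by
    rw [HahnSeries.coeff_sum]
    refine Finset.sum_congr rfl fun h _ => ?_
    rw [HahnSeries.single_pow, HahnSeries.coeff_single]
    split_ifs <;> rfl
  constructor
  · intro g' hg'
    have hex : ∃ g', p • g' = g := ⟨g', hg'⟩
    have h5 : hex.choose = g' := smul_pos_inj hp.pos (hex.choose_spec.trans hg'.symm)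
    have h6 : g' ∈ E := by
      rw [hE]
      refine Finset.mem_union_right _ ?_
      rw [dif_pos hex, h5]
      exact Finset.mem_singleton_self _
    rw [h3, h4, Finset.sum_eq_single g']
    · rw [if_pos hg'.symm]
      exact ⟨(r' + y * z * r).coeff g, by ring⟩
    · intro b _ hb
      rw [if_neg]
      intro hc
      exact hb (smul_pos_inj hp.pos (hc.symm.trans hg'.symm))
    · intro h
      exact absurd h6 h
  · intro hne
    rw [h3, h4, Finset.sum_eq_zero, zero_add]
    · exact ⟨_, rfl⟩
    · intro b _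
      rw [if_neg]
      intro hc
      exact hne b hc.symm

/-- lifts of Frobenius on Hahn series -/
theorem hlift {R : Type} [CommRing R] {p : ℕ} (hp : p.Prime) (f : R →+* R)
    (hf : ∀ a, (p : R) ∣ f a - a ^ p) (x : HahnSeries G R) :
    (p : HahnSeries G R) ∣ hphi R p (hmap f x) - x ^ p := by
  rw [dvd_iff]
  intro g
  rw [HahnSeries.coeff_sub', Pi.sub_apply]
  obtain ⟨h1, h2⟩ := pow_coeff_dvd hp x g
  by_cases h : ∃ g', p • g' = g
  · obtain ⟨g', hg'⟩ := h
    have h3 := h1 g' hg'
    rw [← hg', hphi_coeff hp.pos, hmap_coeff]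
    rw [← hg'] at h3
    have h4 := dvd_sub (hf (x.coeff g')) h3
    have h5 : f (x.coeff g') - x.coeff g' ^ p - ((x ^ p).coeff (p • g') - x.coeff g' ^ p) =
        f (x.coeff g') - (x ^ p).coeff (p • g') := by ring
    rwa [h5] at h4
  · push Not at h
    rw [hphi_coeff_ne hp.pos _ _ h, zero_sub]
    exact (h2 h).neg_right

end General

end Pool.Agent.Helper95_CM.H77
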