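import Pool.Agent.Helper95_CM.StF
import Pool.Agent.Helper95_CM.Base
import Pool.Agent.Helper77_CM.SerL

/-! Modules DLE, LV1, PCO of the CM project (MP_31342c_an). -/

set_option autoImplicit false

noncomputable section

namespace Pool.Agent.Helper95_CM.H77

open MvPolynomial

section
variable {n M : ℕ} {R : Type} [CommRing R] {p : ℕ}

theorem expand_Fp (c : Grid n M → R) : expand p (Fp c) = ∑ β, monomial (p • gex β) (c β) := by
  unfold Fp
  rw [map_sum]
  refine Finset.sum_congr rfl fun β _ => ?_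
  rw [expand_monomial]

theorem Supp.expand {P Q : Expo n → Prop} (h : ∀ s, P s → Q (p • s)) {x : PP n R}
    (hx : Supp P x) : Supp Q (expand p x) := by
  classical
  have h1 : MvPolynomial.expand p x = ∑ s ∈ x.support, monomial (p • s) (coeff s x) := by
    conv_lhs => rw [← support_sum_monomial_coeff x]
    rw [map_sum]
    refine Finset.sum_congr rfl fun s _ => ?_
    rw [expand_monomial]
  rw [h1]
  refine Supp.sum _ _ fun s hs => ?_
  exact Supp.monomial (h s (hx s (mem_support_iff.1 hs))) _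

theorem isCone_expand (hp : 0 < p) {b : Bool} {x : PP n R} (hx : IsCone M b x) :
    IsCone M b (expand p x) := by
  refine Supp.expand ?_ hx
  intro s hs
  cases b
  · intro k
    have := hs k
    simp only [Finsupp.smul_apply, smul_eq_mul]
    calc p * s k.succ ≤ p * (M * s 0) := Nat.mul_le_mul_left _ this
      _ = M * (p * s 0) := by ring
  · intro k
    have := hs k
    simp only [Finsupp.smul_apply, smul_eq_mul]
    refine ⟨Nat.mul_pos hp this.1, ?_⟩
    calc p * s k.succ < p * (M * s 0) := Nat.mul_lt_mul_of_pos_left this.2 hp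
      _ = M * (p * s 0) := by ring

theorem hasLev_expand {l : ℕ} {x : PP n R} (hx : HasLev l x) : HasLev (p * l) (expand p x) := by
  refine Supp.expand ?_ hx
  intro s hs
  simp only [Finsupp.smul_apply, smul_eq_mul]
  rw [hs]

/-- DLE -/
theorem dle : DleStmt := by
  intro n M p hp R _ z f d c hB
  have h0 := hp.out.pos
  constructor
  · obtain ⟨r, hr⟩ := sum_pow_dvd hp.out (Finset.univ : Finset (Grid n M))
      (fun β => (monomial (gex β) (c β) : PP n R))
    have hl := hB.lift
    choose e he using hl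
    refine ⟨r - ∑ β, monomial (p • gex β) (e (c β)), ?_⟩
    unfold IsDl
    rw [expand_Fp, mul_sub]
    have h1 : Fp c ^ p = (∑ β, (monomial (gex β) (c β) : PP n R) ^ p) + (p : PP n R) * r := by
      rw [← hr]
      unfold Fp
      ring
    have h2 : (C (p : R) : PP n R) = (p : PP n R) := map_natCast C p
    rw [h1, h2, Finset.mul_sum]
    have h3 : ∀ β : Grid n M, (monomial (gex β) (c β) : PP n R) ^ p =
        monomial (p • gex β) (f (c β)) - (p : PP n R) * monomial (p • gex β) (e (c β)) := by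
      intro β
      rw [monomial_pow, ← h2, C_mul_monomial, ← map_sub]
      congr 1
      have := he (c β)
      rw [← this]
      ring
    rw [Finset.sum_congr rfl fun β _ => h3 β, Finset.sum_sub_distrib]
    ring
  · intro Dl hDl
    unfold IsDl at hDl
    have h1 : C (p : R) * Dl = Fp c ^ p - expand p (Fp (fun β => f (c β))) := by
      rw [hDl]
      ring
    have h2 : ∀ s, coeff s Dl ≠ 0 →
        coeff s (Fp c ^ p - expand p (Fp (fun β => f (c β)))) ≠ 0 := by
      intro s hs h
      rw [← h1, coeff_C_mul] at h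
      exact hs (hB.tf _ h)
    constructor
    · intro s hs
      refine Supp.sub ((isCone_Fp c).pow p) (isCone_expand h0 (isCone_Fp _)) s (h2 s hs)
    · intro s hs
      have h3 : HasLev p (Fp c ^ p) := by
        have := (hasLev_Fp c).pow p
        rwa [mul_one] at this
      have h4 : HasLev p (expand p (Fp (fun β => f (c β)))) := by
        have := hasLev_expand (p := p) (hasLev_Fp (fun β => f (c β)))
        rwa [mul_one] at this
      exact Supp.sub h3 h4 s (h2 s hs)

/-! ### `VV` and `TJ` -/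

theorem VV_lev (F : PP n R) {l : ℕ} {x : PP n R} (hx : HasLev l x) :
    VV p F x = C (gam p l : R) * x * F ^ (p * mm p l - l) := by
  unfold VV
  have h1 : ∀ s ∈ x.support, monomial s ((gam p (s 0) : R) * coeff s x) *
      F ^ (p * mm p (s 0) - s 0) =
      C (gam p l : R) * monomial s (coeff s x) * F ^ (p * mm p l - l) := by
    intro s hs
    rw [hx s (mem_support_iff.1 hs), C_mul_monomial]
  rw [Finset.sum_congr rfl h1, ← Finset.sum_mul, ← Finset.mul_sum, support_sum_monomial_coeff]

theorem psi_C_mul' (hp : 0 < p) (a : R) (x : PP n R) : psi p (C a * x) = C a * psi p x :=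
  psi_C_mul hp a x

end

/-- LV1 -/
theorem lv1 (hE : EeStmt) (hG : GamStmt) (hD : DleStmt) : Lv1Stmt := by
  intro n M p b hp R _ z f d c Dl J h3 hJ hB hDl x hx hxc
  have h0 := hp.out.pos
  obtain ⟨he0, -, -, hed, -⟩ := hE p h3
  obtain ⟨-, hg1, -, -, -, -, -, hmm⟩ := hG p hp.out h3
  obtain ⟨hDc, hDl'⟩ := (hD n M p R z f d c hB).2 Dl hDl
  choose! w hw using hed
  -- the truncated exponential is `1 + p W`
  have hT : TJ p z J Dl = 1 + C (p : R) * ∑ j ∈ Finset.range (J - 1), C (z (w (j + 1))) *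
      Dl ^ (j + 1) := by
    unfold TJ
    obtain ⟨J', rfl⟩ : ∃ J', J = J' + 1 := ⟨J - 1, by omega⟩
    rw [Nat.add_sub_cancel, Finset.sum_range_succ', he0, map_one, C_1, pow_zero, mul_one,
      add_comm, Finset.mul_sum]
    congr 1
    refine Finset.sum_congr rfl fun j _ => ?_
    rw [hw (j + 1) (by omega), map_mul, map_natCast, C_mul]
    ring
  have hWc : IsCone M false (∑ j ∈ Finset.range (J - 1), C (z (w (j + 1))) * Dl ^ (j + 1)) :=
    Supp.sum _ _ fun j _ => Supp.C_mul _ (hDc.pow _)
  set W := ∑ j ∈ Finset.range (J - 1), C (z (w (j + 1))) * Dl ^ (j + 1) with hWdef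
  refine ⟨psi p (W * (x * Fp c ^ (p - 1))), ?_, ?_⟩
  · have h4 : x * Fp c ^ (p - 1) = Fp c ^ (p - 1) * x := mul_comm _ _
    rw [h4]
    exact IsCone.psi h0 (hWc.mul (((isCone_Fp c).pow _).mul hxc))
  · unfold Psi
    rw [VV_lev _ hx, hg1, hmm 1 le_rfl (by omega), mul_one, hT]
    have h5 : (1 + C (p : R) * W) * (C (p : R) * x * Fp c ^ (p - 1)) =
        C (p : R) * (x * Fp c ^ (p - 1)) + C ((p : R) ^ 2) * (W * (x * Fp c ^ (p - 1))) := by
      rw [C_pow]
      ring
    rw [h5, psi_add h0, psi_C_mul h0, psi_C_mul h0]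

/-! ### coefficients in a subring -/

section
variable {n M : ℕ} {R : Type} [CommRing R] {p : ℕ} {S : Subring R}

/-- coefficients in `S` -/
def CoefIn (S : Subring R) (x : PP n R) : Prop := ∀ s, coeff s x ∈ S

theorem CoefIn.add {x y : PP n R} (hx : CoefIn S x) (hy : CoefIn S y) : CoefIn S (x + y) :=
  fun s => by rw [coeff_add]; exact add_mem (hx s) (hy s)

theorem CoefIn.sub {x y : PP n R} (hx : CoefIn S x) (hy : CoefIn S y) : CoefIn S (x - y) :=
  fun s => by rw [coeff_sub]; exact sub_mem (hx s) (hy s)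

theorem CoefIn.mul {x y : PP n R} (hx : CoefIn S x) (hy : CoefIn S y) : CoefIn S (x * y) := by
  classical
  intro s
  rw [coeff_mul]
  exact sum_mem fun a _ => mul_mem (hx _) (hy _)

theorem CoefIn.C_mul {x : PP n R} (hx : CoefIn S x) {a : R} (ha : a ∈ S) : CoefIn S (C a * x) :=
  fun s => by rw [coeff_C_mul]; exact mul_mem ha (hx s)

theorem CoefIn.one : CoefIn S (1 : PP n R) := by
  classical
  intro s
  rw [coeff_one]
  split_ifs
  · exact one_mem _
  · exact zero_mem _

theorem CoefIn.pow {x : PP n R} (hx : CoefIn S x) (k : ℕ) : CoefIn S (x ^ k) := by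
  induction k with
  | zero => rw [pow_zero]; exact CoefIn.one
  | succ k ih => rw [pow_succ]; exact ih.mul hx

theorem CoefIn.sum {ι : Type} (t : Finset ι) (x : ι → PP n R) (h : ∀ i ∈ t, CoefIn S (x i)) :
    CoefIn S (∑ i ∈ t, x i) := by
  intro s
  rw [coeff_sum]
  exact sum_mem fun i hi => h i hi s

theorem CoefIn.monomial {s : Expo n} {a : R} (ha : a ∈ S) :
    CoefIn S (MvPolynomial.monomial s a : PP n R) := by
  classical
  intro s'
  rw [coeff_monomial]
  split_ifs
  · exact ha
  · exact zero_mem _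

theorem CoefIn.psi (hp : 0 < p) {x : PP n R} (hx : CoefIn S x) : CoefIn S (psi p x) :=
  fun s => by rw [coeff_psi hp]; exact hx _

theorem CoefIn.Fp {c : Grid n M → R} (h : ∀ β, c β ∈ S) : CoefIn S (Fp c) :=
  CoefIn.sum _ _ fun β _ => CoefIn.monomial (h β)

theorem CoefIn.expandFp {c : Grid n M → R} (h : ∀ β, c β ∈ S) :
    CoefIn S (MvPolynomial.expand p (Helper95_CM.Fp c)) := by
  rw [expand_Fp]
  exact CoefIn.sum _ _ fun β _ => CoefIn.monomial (h β)

end

theorem mm_mono {p : ℕ} {a b : ℕ} (h : a ≤ b) : mm p a ≤ mm p b := by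
  unfold mm
  exact Nat.div_le_div_right (by omega)

/-- coefficients of `Δ` in a saturated subring -/
theorem Dl_coefIn {n M p : ℕ} [Fact p.Prime] {R : Type} [CommRing R] {z : ℤ_[p] →+* R}
    {f : R →+* R} {d : R →+ R} {c : Grid n M → R} {Dl : PP n R} {S : Subring R}
    (hDl : IsDl p f c Dl) (hS : SubB p z f d c S) : CoefIn S Dl := by
  intro s
  apply hS.sat
  have h1 : C (p : R) * Dl = Fp c ^ p - expand p (Fp (fun β => f (c β))) := by
    unfold IsDl at hDl
    rw [hDl]
    ring
  rw [← coeff_C_mul, h1]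
  exact CoefIn.sub (CoefIn.pow (CoefIn.Fp hS.cS) p) (CoefIn.expandFp fun β => hS.fS _ (hS.cS β)) s

/-- PCO -/
theorem pco (hD : DleStmt) : PcoStmt := by
  intro n M p b hp R _ z f d c Dl J l S hB hDl hS
  have h0 := hp.out.pos
  obtain ⟨hDc, hDl'⟩ := (hD n M p R z f d c hB).2 Dl hDl
  have hDS : CoefIn S Dl := Dl_coefIn hDl hS
  refine ⟨hDS, fun x hx hxl hxS => ?_⟩
  have hmm : ∀ l, l ≤ p * mm p l := by
    intro l
    unfold mm
    have h1 := Nat.div_add_mod (l + p - 1) p
    have h2 := Nat.mod_lt (l + p - 1) h0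
    omega
  -- the element before contraction
  have hTc : IsCone M false (TJ p z J Dl) := Supp.sum _ _ fun j _ => Supp.C_mul _ (hDc.pow j)
  have hTS : CoefIn S (TJ p z J Dl) :=
    CoefIn.sum _ _ fun j _ => CoefIn.C_mul (hDS.pow j) (hS.zS _)
  have hTl : LevLe (p * J) (TJ p z J Dl) := by
    refine Supp.sum _ _ fun j hj => Supp.C_mul _ ?_
    refine (hDl'.pow j).levLe ?_
    have := Finset.mem_range.1 hj
    rw [mul_comm]
    exact Nat.mul_le_mul_left _ (by omega)
  have hVc : IsCone M b (VV p (Fp c) x) := by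
    refine Supp.sum _ _ fun s hs => ?_
    rw [mul_comm]
    exact IsCone.mul ((isCone_Fp c).pow _) (Supp.monomial (hx s (mem_support_iff.1 hs)) _)
  have hVS : CoefIn S (VV p (Fp c) x) := by
    refine CoefIn.sum _ _ fun s _ => ?_
    refine CoefIn.mul (CoefIn.monomial (mul_mem (natCast_mem S _) (hxS s))) ?_
    exact CoefIn.pow (CoefIn.Fp hS.cS) _
  have hVl : LevLe (p * mm p l) (VV p (Fp c) x) := by
    refine Supp.sum _ _ fun s hs => ?_
    have h4 : HasLev (s 0) (monomial s ((gam p (s 0) : R) * coeff s x) : PP n R) :=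
      Supp.monomial (P := fun s' : Expo n => s' 0 = s 0) rfl _
    have h5 := h4.mul ((hasLev_Fp c).pow (p * mm p (s 0) - s 0))
    refine h5.levLe ?_
    have h6 := hxl s (mem_support_iff.1 hs)
    have h7 := hmm (s 0)
    have h8 : p * mm p (s 0) ≤ p * mm p l := Nat.mul_le_mul_left _ (mm_mono h6)
    omega
  unfold Psi
  refine ⟨IsCone.psi h0 (hTc.mul hVc), ?_, CoefIn.psi h0 (hTS.mul hVS)⟩
  refine Supp.psi h0 ?_ (hTl.mul hVl)
  intro s hs
  simp only [Finsupp.smul_apply, smul_eq_mul] at hs
  have h9 : p * s 0 ≤ p * (mm p l + J) := by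
    calc p * s 0 ≤ p * J + p * mm p l := hs
      _ = p * (mm p l + J) := by ring
  exact Nat.le_of_mul_le_mul_left h9 h0

end Pool.Agent.Helper95_CM.H77
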