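import Pool.Agent.Helper77_CM.Opc

/-! Module FRB of the CM project (MP_31342c_an). -/

set_option autoImplicit false

noncomputable section

namespace Pool.Agent.Helper95_CM.H77

open HahnSeries

theorem zp_lift (p : ℕ) [hp : Fact p.Prime] (a : ℤ_[p]) : (p : ℤ_[p]) ∣ a - a ^ p := by
  have h : PadicInt.toZMod (a - a ^ p) = 0 := by
    rw [map_sub, map_pow, ZMod.pow_card, sub_self]
  rw [← RingHom.mem_ker, PadicInt.ker_toZMod, PadicInt.maximalIdeal_eq_span_p,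
    Ideal.mem_span_singleton] at h
  exact h

theorem zp_tf (p : ℕ) [hp : Fact p.Prime] (a : ℤ_[p]) (h : (p : ℤ_[p]) * a = 0) : a = 0 := by
  rcases mul_eq_zero.1 h with h | h
  · exact absurd h (by exact_mod_cast hp.out.ne_zero)
  · exact h

variable (q p : ℕ) [hp : Fact p.Prime]

theorem liftC (x : CC q ℤ_[p]) : (p : CC q ℤ_[p]) ∣ phC q ℤ_[p] p x - x ^ p := by
  have := hlift (G := Gam q) hp.out (RingHom.id ℤ_[p]) (fun a => zp_lift p a) x
  rw [hmap_id] at this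
  exact this

theorem liftO (x : OO q ℤ_[p]) : (p : OO q ℤ_[p]) ∣ phO q ℤ_[p] p x - x ^ p :=
  hlift (G := ℤ) hp.out (phC q ℤ_[p] p) (liftC q p) x

theorem liftL (x : LL q ℤ_[p]) : (p : LL q ℤ_[p]) ∣ phL q ℤ_[p] p x - x ^ p :=
  hlift (G := ℤ) hp.out (phO q ℤ_[p] p) (liftO q p) x

theorem tfC (x : CC q ℤ_[p]) (h : (p : CC q ℤ_[p]) * x = 0) : x = 0 :=
  tf_of (G := Gam q) (zp_tf p) x h

theorem tfO (x : OO q ℤ_[p]) (h : (p : OO q ℤ_[p]) * x = 0) : x = 0 :=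
  tf_of (G := ℤ) (tfC q p) x h

theorem tfL (x : LL q ℤ_[p]) (h : (p : LL q ℤ_[p]) * x = 0) : x = 0 :=
  tf_of (G := ℤ) (tfO q p) x h

theorem hphi_C {G : Type} [AddCommGroup G] [LinearOrder G] [IsOrderedAddMonoid G] {R : Type}
    [CommRing R] {p : ℕ} (hp : 0 < p) (a : R) :
    hphi R p (HahnSeries.C a : HahnSeries G R) = HahnSeries.C a := by
  ext g
  by_cases h : ∃ g', p • g' = g
  · obtain ⟨g', rfl⟩ := h
    rw [hphi_coeff hp, HahnSeries.C_apply, HahnSeries.coeff_single, HahnSeries.coeff_single]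
    by_cases h0 : g' = 0
    · rw [if_pos h0, if_pos (by rw [h0, nsmul_zero])]
    · rw [if_neg h0, if_neg]
      intro hc
      exact h0 (smul_pos_inj hp (hc.trans (nsmul_zero _).symm))
  · push Not at h
    rw [hphi_coeff_ne hp _ _ h, HahnSeries.C_apply, HahnSeries.coeff_single, if_neg]
    rintro rfl
    exact h 0 (nsmul_zero _)

theorem hmap_C {G : Type} [AddCommGroup G] [LinearOrder G] [IsOrderedAddMonoid G] {R S : Type}
    [CommRing R] [CommRing S] (f : R →+* S) (a : R) :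
    hmap f (HahnSeries.C a : HahnSeries G R) = HahnSeries.C (f a) := by
  ext g
  rw [hmap_coeff, HahnSeries.C_apply, HahnSeries.C_apply, HahnSeries.coeff_single,
    HahnSeries.coeff_single]
  split_ifs
  · rfl
  · exact map_zero f

theorem linC (a : ℤ_[p]) : phC q ℤ_[p] p (HahnSeries.C a) = HahnSeries.C a :=
  hphi_C hp.out.pos a

theorem linO (a : ℤ_[p]) : phO q ℤ_[p] p (kO q ℤ_[p] a) = kO q ℤ_[p] a := by
  change hphi _ p (hmap (phC q ℤ_[p] p) (HahnSeries.C (HahnSeries.C a))) = _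
  rw [hmap_C, hphi_C hp.out.pos, linC]
  rfl

theorem linL (a : ℤ_[p]) : phL q ℤ_[p] p (kL q ℤ_[p] a) = kL q ℤ_[p] a := by
  change hphi _ p (hmap (phO q ℤ_[p] p) (HahnSeries.C (kO q ℤ_[p] a))) = _
  rw [hmap_C, hphi_C hp.out.pos, linO]
  rfl

theorem hw_C {G : Type} [AddCommGroup G] [LinearOrder G] [IsOrderedAddMonoid G] {R : Type}
    [CommRing R] (e : G →+ ℤ) (a : R) : hw e (HahnSeries.C a : HahnSeries G R) = 0 := by
  ext g
  rw [hw_coeff, HahnSeries.C_apply, HahnSeries.coeff_single]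
  split_ifs with h
  · rw [h, map_zero]
    simp
  · rw [mul_zero]
    rfl

theorem commLw (x : LL q ℤ_[p]) : thLw q ℤ_[p] (phL q ℤ_[p] p x) =
    (p : LL q ℤ_[p]) * phL q ℤ_[p] p (thLw q ℤ_[p] x) := by
  have h0 := hp.out.pos
  have key : ∀ y : OO q ℤ_[p], thOw q ℤ_[p] (phO q ℤ_[p] p y) =
      (p : OO q ℤ_[p]) * phO q ℤ_[p] p (thOw q ℤ_[p] y) := fun y => thT_ph h0 _ y
  refine HahnSeries.ext ?_
  funext m
  rw [natCast_mul_coeff']
  by_cases h : (p : ℤ) ∣ m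
  · obtain ⟨m', rfl⟩ := h
    change thOw q ℤ_[p] ((phL q ℤ_[p] p x).coeff ((p : ℤ) * m')) = _
    rw [phT_coeff h0, phT_coeff h0, key]
    rfl
  · change thOw q ℤ_[p] ((phL q ℤ_[p] p x).coeff m) = _
    rw [phT_coeff_ne h0 _ _ _ h, phT_coeff_ne h0 _ _ _ h, map_zero, mul_zero]

theorem phC_dvd (x : CC q ℤ_[p]) (h : (p : CC q ℤ_[p]) ∣ phC q ℤ_[p] p x) :
    (p : CC q ℤ_[p]) ∣ x := by
  rw [dvd_iff] at h ⊢
  intro g
  have := h (p • g)
  rwa [show (phC q ℤ_[p] p x).coeff (p • g) = x.coeff g from hphi_coeff hp.out.pos x g] at this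

theorem phO_dvd (x : OO q ℤ_[p]) (h : (p : OO q ℤ_[p]) ∣ phO q ℤ_[p] p x) :
    (p : OO q ℤ_[p]) ∣ x := by
  rw [dvd_iff] at h ⊢
  intro m
  have := h ((p : ℤ) * m)
  rw [show (phO q ℤ_[p] p x).coeff ((p : ℤ) * m) = phC q ℤ_[p] p (x.coeff m) from
    phT_coeff hp.out.pos _ x m] at this
  exact phC_dvd q p _ this

/-- FRB -/
theorem frb : FrbStmt := by
  intro q p hp
  refine ⟨⟨tfL q p, liftL q p, linL q p, isDer_hw _, ?_, fun x => thT_ph hp.out.pos _ x⟩,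
    ⟨tfL q p, liftL q p, linL q p, isDer_cwA (isDer_hw _), ?_, commLw q p⟩,
    ⟨tfO q p, linO q p⟩, phO_dvd q p⟩
  · intro a
    exact hw_C _ _
  · intro a
    change cwA (thOw q ℤ_[p]) (HahnSeries.C (kO q ℤ_[p] a)) = 0
    ext m : 2
    rw [cwA_coeff, HahnSeries.C_apply, HahnSeries.coeff_single]
    split_ifs
    · have : thOw q ℤ_[p] (kO q ℤ_[p] a) = 0 := hw_C _ _
      rw [this]
      rfl
    · rw [map_zero]
      rfl

end Pool.Agent.Helper95_CM.H77
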