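import Pool.Agent.Helper95_CM.StK
import Pool.Agent.Helper77_CM.SerL

/-! Module OPC of the CM project (MP_31342c_an). -/

set_option autoImplicit false

noncomputable section

namespace Pool.Agent.Helper95_CM.H77

open HahnSeries

theorem mC_phC {q : ℕ} {R S : Type} [CommRing R] [CommRing S] (g : R →+* S) {p : ℕ} (hp : 0 < p)
    (x : CC q R) : mC q g (phC q R p x) = phC q S p (mC q g x) := hmap_hphi g hp x

theorem mO_phO {q : ℕ} {R S : Type} [CommRing R] [CommRing S] (g : R →+* S) {p : ℕ} (hp : 0 < p)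
    (x : OO q R) : mO q g (phO q R p x) = phO q S p (mO q g x) := by
  have key : (mC q g).comp (phC q R p) = (phC q S p).comp (mC q g) :=
    RingHom.ext fun y => mC_phC g hp y
  change hmap (mC q g) (hphi _ p (hmap (phC q R p) x)) =
    hphi _ p (hmap (phC q S p) (hmap (mC q g) x))
  rw [hmap_hphi _ hp, hmap_comp, hmap_comp, key]

theorem mL_phL {q : ℕ} {R S : Type} [CommRing R] [CommRing S] (g : R →+* S) {p : ℕ} (hp : 0 < p)
    (x : LL q R) : mL q g (phL q R p x) = phL q S p (mL q g x) := by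
  have key : (mO q g).comp (phO q R p) = (phO q S p).comp (mO q g) :=
    RingHom.ext fun y => mO_phO g hp y
  change hmap (mO q g) (hphi _ p (hmap (phO q R p) x)) =
    hphi _ p (hmap (phO q S p) (hmap (mO q g) x))
  rw [hmap_hphi _ hp, hmap_comp, hmap_comp, key]

theorem isDer_hw {G : Type} [AddCommGroup G] [LinearOrder G] [IsOrderedAddMonoid G] {R : Type}
    [CommRing R] (e : G →+ ℤ) : IsDer (R := HahnSeries G R) (hw e) := hw_mul e

theorem isDer_cwA {G : Type} [AddCommGroup G] [LinearOrder G] [IsOrderedAddMonoid G] {R : Type}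
    [CommRing R] {d : R →+ R} (hd : IsDer d) : IsDer (R := HahnSeries G R) (cwA d) := cwA_mul d hd

theorem psC_mul {q : ℕ} {R : Type} [CommRing R] {p : ℕ} (hp : 0 < p) (x y : CC q R) :
    psC q R p (phC q R p x * y) = x * psC q R p y := by
  have h := psi_phi_mul (G := Gam q) (RingHom.id R) (AddMonoidHom.id R) (fun a b => rfl) hp x y
  have h1 : ∀ z : HahnSeries (Gam q) R, cwA (AddMonoidHom.id R) z = z := by
    intro z
    ext g
    rfl
  rw [h1, h1, hmap_id] at h
  exact h

theorem psO_mul {q : ℕ} {R : Type} [CommRing R] {p : ℕ} (hp : 0 < p) (x y : OO q R) :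
    psO q R p (phO q R p x * y) = x * psO q R p y :=
  psi_phi_mul (G := ℤ) (phC q R p) (psC q R p) (psC_mul hp) hp x y

theorem psL_mul {q : ℕ} {R : Type} [CommRing R] {p : ℕ} (hp : 0 < p) (x y : LL q R) :
    psL q R p (phL q R p x * y) = x * psL q R p y :=
  psi_phi_mul (G := ℤ) (phO q R p) (psO q R p) (psO_mul hp) hp x y

theorem thT_ph {R : Type} [CommRing R] {p : ℕ} (hp : 0 < p) (f : R →+* R) (x : LaurentSeries R) :
    tht R (phT p f x) = (p : LaurentSeries R) * phT p f (tht R x) := by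
  change hw _ (hphi R p (hmap f x)) = _ * hphi R p (hmap f (hw _ x))
  rw [hmap_hw]
  exact hw_hphi _ hp _

theorem psC_coeff {q : ℕ} {R : Type} [CommRing R] {p : ℕ} (hp : 0 < p) (x : CC q R) (a : Gam q) :
    (psC q R p x).coeff a = x.coeff (p • a) := hpsi_coeff hp x a

theorem psO_coeff {q : ℕ} {R : Type} [CommRing R] {p : ℕ} (hp : 0 < p) (x : OO q R) (m : ℤ) :
    (psO q R p x).coeff m = psC q R p (x.coeff ((p : ℤ) * m)) := by
  have := hpsi_coeff hp (cwA (psC q R p) x) m
  rw [nsmul_eq_mul] at this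
  exact this

theorem psL_coeff {q : ℕ} {R : Type} [CommRing R] {p : ℕ} (hp : 0 < p) (x : LL q R) (m : ℤ) :
    (psL q R p x).coeff m = psO q R p (x.coeff ((p : ℤ) * m)) := by
  have := hpsi_coeff hp (cwA (psO q R p) x) m
  rw [nsmul_eq_mul] at this
  exact this

/-- OPC -/
theorem opc : OpcStmt := by
  intro q R S _ _ g p hp
  refine ⟨fun x => mL_phL g hp x, fun x => hmap_hw _ _ x, ?_, ?_, ?_, ?_, ?_, ?_, ?_, ?_, ?_⟩
  · intro x
    ext m m' a
    change g (((m' : CC q R) * ((x.coeff m).coeff m')).coeff a) =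
      (((m' : ℤ) : CC q S) * (hmap g ((x.coeff m).coeff m'))).coeff a
    have h1 : ∀ (T : Type) [CommRing T] (y : CC q T), (((m' : ℤ) : CC q T) * y).coeff a =
        (m' : T) * y.coeff a := by
      intro T _ y
      rw [← zsmul_eq_mul, ← zsmul_eq_mul]
      rfl
    rw [h1, h1, map_mul, map_intCast, hmap_coeff]
  · intro i x
    ext m m' a
    change g (((gco q i a : ℤ) : R) * ((x.coeff m).coeff m').coeff a) =
      ((gco q i a : ℤ) : S) * g (((x.coeff m).coeff m').coeff a)
    rw [map_mul, map_intCast]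
  · intro x
    ext m m' a
    change g ((((psL q R p x).coeff m).coeff m').coeff a) = _
    rw [psL_coeff hp, psL_coeff hp, psO_coeff hp, psO_coeff hp, psC_coeff hp, psC_coeff hp]
    rfl
  · intro x y
    exact psL_mul hp x y
  · intro x
    exact thT_ph hp _ x
  · intro m x hx i hi
    rw [psL_coeff hp, hx _ hi, map_zero]
  · exact isDer_hw _
  · exact isDer_cwA (isDer_hw _)
  · intro i
    exact isDer_cwA (isDer_cwA (isDer_hw _))

end Pool.Agent.Helper95_CM.H77
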