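import Pool.Agent.Helper77_CM.Dle

/-! Module POL of the CM project (MP_31342c_an). -/

set_option autoImplicit false

noncomputable section

namespace Pool.Agent.Helper95_CM.H77

open MvPolynomial

/-! ### `OrdGe` -/

section
variable {R : Type} [CommRing R]

theorem OrdGe.mono {a b : ℤ} (h : b ≤ a) {x : LaurentSeries R} (hx : OrdGe a x) : OrdGe b x :=
  fun i hi => hx i (by omega)

theorem OrdGe.zero (a : ℤ) : OrdGe a (0 : LaurentSeries R) := fun _ _ => rfl

theorem OrdGe.add {a : ℤ} {x y : LaurentSeries R} (hx : OrdGe a x) (hy : OrdGe a y) :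
    OrdGe a (x + y) := fun i hi => by
  rw [HahnSeries.coeff_add', Pi.add_apply, hx i hi, hy i hi, add_zero]

theorem OrdGe.neg {a : ℤ} {x : LaurentSeries R} (hx : OrdGe a x) : OrdGe a (-x) := fun i hi => by
  rw [HahnSeries.coeff_neg', Pi.neg_apply, hx i hi, neg_zero]

theorem OrdGe.sub {a : ℤ} {x y : LaurentSeries R} (hx : OrdGe a x) (hy : OrdGe a y) :
    OrdGe a (x - y) := by
  rw [sub_eq_add_neg]
  exact OrdGe.add hx (OrdGe.neg hy)

theorem OrdGe.sum {ι : Type} {a : ℤ} (t : Finset ι) (x : ι → LaurentSeries R)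
    (h : ∀ i ∈ t, OrdGe a (x i)) : OrdGe a (∑ i ∈ t, x i) := by
  classical
  induction t using Finset.induction_on with
  | empty => rw [Finset.sum_empty]; exact OrdGe.zero a
  | insert i t hi ih =>
    rw [Finset.sum_insert hi]
    exact OrdGe.add (h i (Finset.mem_insert_self _ _))
      (ih fun j hj => h j (Finset.mem_insert_of_mem hj))

theorem OrdGe.mul {a b : ℤ} {x y : LaurentSeries R} (hx : OrdGe a x) (hy : OrdGe b y) :
    OrdGe (a + b) (x * y) := by
  intro i hi
  rw [HahnSeries.coeff_mul]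
  refine Finset.sum_eq_zero fun jk hjk => ?_
  rw [Finset.mem_antidiagonal] at hjk
  by_cases h : jk.1 < a
  · rw [hx _ h, zero_mul]
  · have h2 : jk.2 < b := by
      have := hjk.2.2
      omega
    rw [hy _ h2, mul_zero]

theorem OrdGe.one : OrdGe 0 (1 : LaurentSeries R) := by
  intro i hi
  rw [HahnSeries.coeff_one, if_neg (by omega)]

theorem OrdGe.pow {a : ℤ} {x : LaurentSeries R} (hx : OrdGe a x) (k : ℕ) :
    OrdGe ((k : ℤ) * a) (x ^ k) := by
  induction k with
  | zero =>
    rw [pow_zero, Nat.cast_zero, zero_mul]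
    exact OrdGe.one
  | succ k ih =>
    rw [pow_succ]
    have := OrdGe.mul ih hx
    refine OrdGe.mono ?_ this
    push_cast
    ring_nf
    exact le_rfl

theorem OrdGe.natCast (k : ℕ) : OrdGe 0 (k : LaurentSeries R) := by
  induction k with
  | zero => rw [Nat.cast_zero]; exact OrdGe.zero 0
  | succ k ih => rw [Nat.cast_succ]; exact OrdGe.add ih OrdGe.one

theorem OrdGe.phT {a : ℤ} {x : LaurentSeries R} (hx : OrdGe a x) {p : ℕ} (hp : 0 < p)
    (f : R →+* R) : OrdGe ((p : ℤ) * a) (phT p f x) := by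
  intro i hi
  by_cases h : (p : ℤ) ∣ i
  · obtain ⟨j, rfl⟩ := h
    rw [phT_coeff hp, hx j, map_zero]
    exact lt_of_mul_lt_mul_left hi (by positivity)
  · exact phT_coeff_ne hp _ _ _ h

/-- the subring of series without poles -/
def Sr (R : Type) [CommRing R] : Subring (LaurentSeries R) where
  carrier := {x | OrdGe 0 x}
  mul_mem' := fun ha hb => by
    have := OrdGe.mul ha hb
    rwa [add_zero] at this
  one_mem' := OrdGe.one
  add_mem' := fun ha hb => OrdGe.add ha hb
  zero_mem' := OrdGe.zero 0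
  neg_mem' := fun ha => OrdGe.neg ha

theorem mem_Sr {x : LaurentSeries R} : x ∈ Sr R ↔ OrdGe 0 x := Iff.rfl

end

/-! ### matrices -/

section
variable {𝒪 : Type} [CommRing 𝒪]

theorem PolLe.mono {I J : Type} {a b : ℕ} (h : a ≤ b) {X : Matrix I J (LaurentSeries 𝒪)}
    (hX : PolLe a X) : PolLe b X := fun i j => OrdGe.mono (by omega) (hX i j)

theorem PolLe.mul {I J K : Type} [Fintype J] {a b : ℕ} {X : Matrix I J (LaurentSeries 𝒪)}
    {Y : Matrix J K (LaurentSeries 𝒪)} (hX : PolLe a X) (hY : PolLe b Y) :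
    PolLe (a + b) (X * Y) := by
  intro i k
  rw [Matrix.mul_apply]
  refine OrdGe.sum _ _ fun j _ => ?_
  refine OrdGe.mono ?_ (OrdGe.mul (hX i j) (hY j k))
  push_cast
  omega

theorem PolLe.add {I J : Type} {a : ℕ} {X Y : Matrix I J (LaurentSeries 𝒪)} (hX : PolLe a X)
    (hY : PolLe a Y) : PolLe a (X + Y) := fun i j => OrdGe.add (hX i j) (hY i j)

theorem PolLe.sub {I J : Type} {a : ℕ} {X Y : Matrix I J (LaurentSeries 𝒪)} (hX : PolLe a X)
    (hY : PolLe a Y) : PolLe a (X - Y) := fun i j => OrdGe.sub (hX i j) (hY i j)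

theorem PolLe.one {I : Type} [DecidableEq I] : PolLe 0 (1 : Matrix I I (LaurentSeries 𝒪)) := by
  intro i j
  rw [Matrix.one_apply]
  split_ifs
  · exact OrdGe.one
  · exact OrdGe.zero _

theorem PolLe.pow {I : Type} [Fintype I] [DecidableEq I] {a : ℕ}
    {X : Matrix I I (LaurentSeries 𝒪)} (hX : PolLe a X) (k : ℕ) : PolLe (k * a) (X ^ k) := by
  induction k with
  | zero => rw [pow_zero, zero_mul]; exact PolLe.one
  | succ k ih => rw [pow_succ, Nat.succ_mul]; exact PolLe.mul ih hX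

theorem PolLe.sum {I J ι : Type} {a : ℕ} (t : Finset ι) (X : ι → Matrix I J (LaurentSeries 𝒪))
    (h : ∀ i ∈ t, PolLe a (X i)) : PolLe a (∑ i ∈ t, X i) := by
  intro i j
  rw [Matrix.sum_apply]
  exact OrdGe.sum _ _ fun l hl => h l hl i j

end

/-! ### coefficients -/

section
variable {n M : ℕ} {R : Type} [CommRing R] {p : ℕ} {S : Subring R}

theorem CoefIn.th {x : PP n R} (hx : CoefIn S x) (i : Fin (n + 1)) :
    CoefIn S (Helper95_CM.th i x) := fun s => by
  rw [coeff_th]
  exact mul_mem (natCast_mem S _) (hx s)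

theorem CoefIn.Jac {c : Grid n M → R} (h : ∀ β, c β ∈ S) : CoefIn S (Helper95_CM.Jac c) := by
  unfold Helper95_CM.Jac
  rw [Matrix.det_apply']
  refine CoefIn.sum _ _ fun σ _ => ?_
  refine CoefIn.mul ?_ ?_
  · intro s
    have h1 : (((Equiv.Perm.sign σ : ℤˣ) : ℤ) : PP n R) =
        C ((((Equiv.Perm.sign σ : ℤˣ) : ℤ) : R)) := by
      rw [map_intCast]
    rw [h1]
    have h2 := (CoefIn.one (S := S) (n := n)).C_mul
      (intCast_mem S ((Equiv.Perm.sign σ : ℤˣ) : ℤ)) s
    rwa [mul_one] at h2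
  · have hprod : ∀ (t : Finset (Fin (n + 1))) (g : Fin (n + 1) → PP n R),
        (∀ i ∈ t, CoefIn S (g i)) → CoefIn S (∏ i ∈ t, g i) := by
      classical
      intro t g
      induction t using Finset.induction_on with
      | empty => intro _; rw [Finset.prod_empty]; exact CoefIn.one
      | insert i t hi ih =>
        intro hg
        rw [Finset.prod_insert hi]
        exact (hg i (Finset.mem_insert_self _ _)).mul
          (ih fun j hj => hg j (Finset.mem_insert_of_mem hj))
    refine hprod _ _ fun i _ => ?_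
    unfold Hes
    rw [Matrix.of_apply]
    exact ((CoefIn.Fp h).th _).th _

theorem CoefIn.bb {b : Bool} (A : CAD n M b) {c : Grid n M → R} (h : ∀ β, c β ∈ S) (s : Expo n) :
    CoefIn S (Helper95_CM.bb A c s) := by
  unfold Helper95_CM.bb bbo
  split_ifs
  · exact CoefIn.Jac h
  · exact CoefIn.monomial (one_mem S)

end

/-- the basis elements lie in the cone and have level `s 0` -/
theorem bb_lev (hJ : JConeStmt) {n M : ℕ} (hn : 1 ≤ n) (hM : 1 ≤ M) {b : Bool} (A : CAD n M b)
    {R : Type} [CommRing R] (c : Grid n M → R) {s : Expo n} (hs : s ∈ A.Bas) :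
    IsCone M b (bb A c s) ∧ HasLev (s 0) (bb A c s) := by
  unfold bb bbo
  split_ifs with h
  · obtain ⟨rfl, rfl⟩ := h
    have h1 : Jac c = Matrix.det (Matrix.of fun j i => th j (th i (Fp c))) := rfl
    rw [h1, A.top_lev]
    exact hJ n M R (fun i => th i (Fp c)) hn hM fun i => ⟨(isCone_Fp c).th i, (hasLev_Fp c).th i⟩
  · exact ⟨Supp.monomial (A.cone s hs) _, Supp.monomial (P := fun s' : Expo n => s' 0 = s 0) rfl _⟩

theorem bas_lev {n M : ℕ} {b : Bool} (A : CAD n M b) {s : Expo n} (hs : s ∈ A.Bas) :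
    s 0 ≤ n + 1 := by
  rcases A.lev s hs with h | h
  · omega
  · rw [h.2, A.top_lev]

theorem mm_le_self {p : ℕ} (hp : 1 ≤ p) (l : ℕ) : mm p l ≤ l := by
  unfold mm
  rcases Nat.eq_zero_or_pos l with rfl | hl
  · rw [Nat.div_eq_of_lt (by omega)]
  · refine Nat.div_le_of_le_mul ?_
    obtain ⟨k, rfl⟩ : ∃ k, l = k + 1 := ⟨l - 1, by omega⟩
    have : k ≤ p * k := Nat.le_mul_of_pos_left k hp
    rw [mul_add, mul_one]
    omega

/-- POL -/
theorem pol (hG : GamStmt) (hD : DleStmt) (hP : PcoStmt) (h4 : Hb4Stmt) (hJ : JConeStmt) :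
    PolStmt := by
  intro n M p b A hp 𝒪 _ z φ c Dl N e hn hM h3 hN hB hz hDl hu hc he
  have h0 := hp.out.pos
  set f := phT p φ with hf
  obtain ⟨hDc, hDl'⟩ := (hD n M p _ z f (tht 𝒪) c hB).2 Dl hDl
  have hS : SubB p z f (tht 𝒪) c (Sr 𝒪) := by
    refine ⟨fun β => hc β, fun a => hz a, ?_, ?_, ?_⟩
    · intro x hx i hi
      have h1 : (p : 𝒪) * x.coeff i = 0 := by
        rw [← natCast_mul_coeff']
        exact hx i hi
      have h2 : (p : LaurentSeries 𝒪) * HahnSeries.C (x.coeff i) = 0 := by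
        ext g
        rw [natCast_mul_coeff', HahnSeries.C_apply, HahnSeries.coeff_single]
        split_ifs
        · rw [h1]; rfl
        · rw [mul_zero]; rfl
      have h3' := hB.tf _ h2
      have h4' := congrArg (fun y : LaurentSeries 𝒪 => y.coeff 0) h3'
      simpa using h4'
    · intro x hx
      have := OrdGe.phT (a := 0) hx h0 φ
      rwa [mul_zero] at this
    · intro x hx i hi
      rw [tht_coeff, hx i hi, mul_zero]
  have hfc : ∀ β, f (c β) ∈ Sr 𝒪 := fun β => hS.fS _ (hS.cS β)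
  have hdt : dt A (fun β => f (c β)) = f (dt A c) := dt_map A f c
  have hu' : IsUnit (dt A (fun β => f (c β))) := by
    rw [hdt]
    exact hu.map f
  -- coordinates at `f c`
  have hcrd' : ∀ (l : ℕ) (x : PP n (LaurentSeries 𝒪)), CoefIn (Sr 𝒪) x → LevLe l x → ∀ s,
      OrdGe (-((p * (e * (l + 1)) : ℕ) : ℤ)) (crd A (fun β => f (c β)) x s) := by
    intro l x hx hl s
    have h1 := h4 n M b A _ (fun β => f (c β)) (Sr 𝒪) hn hM hu' hfc l x hx hl s
    have h2 : crd A (fun β => f (c β)) x s = (f (Ring.inverse (dt A c))) ^ (l + 1) *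
        (dt A (fun β => f (c β)) ^ (l + 1) * crd A (fun β => f (c β)) x s) := by
      rw [← mul_assoc, ← mul_pow, hdt, ← map_mul, Ring.inverse_mul_cancel _ hu, map_one, one_pow,
        one_mul]
    rw [h2]
    have h5 := OrdGe.mul (OrdGe.pow (OrdGe.phT he h0 φ) (l + 1)) (mem_Sr.1 h1)
    refine OrdGe.mono ?_ h5
    push_cast
    ring_nf
    exact le_rfl
  have hcrd : ∀ (l : ℕ) (x : PP n (LaurentSeries 𝒪)), CoefIn (Sr 𝒪) x → LevLe l x → ∀ s,
      OrdGe (-((e * (l + 1) : ℕ) : ℤ)) (crd A c x s) := by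
    intro l x hx hl s
    have h1 := h4 n M b A _ c (Sr 𝒪) hn hM hu hc l x hx hl s
    have h2 : crd A c x s = (Ring.inverse (dt A c)) ^ (l + 1) *
        (dt A c ^ (l + 1) * crd A c x s) := by
      rw [← mul_assoc, ← mul_pow, Ring.inverse_mul_cancel _ hu, one_pow, one_mul]
    rw [h2]
    have h5 := OrdGe.mul (OrdGe.pow he (l + 1)) (mem_Sr.1 h1)
    refine OrdGe.mono ?_ h5
    push_cast
    ring_nf
    exact le_rfl
  have hPm : PolLe (p * (e * (2 * N + n + 2))) (Pm A p z N f c Dl) := by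
    intro s' s
    have h1 := (hP n M p b _ z f (tht 𝒪) c Dl (2 * N) (n + 1) (Sr 𝒪) hB hDl hS).2 (bb A c s)
      (bb_lev hJ hn hM A c s.2).1 ((bb_lev hJ hn hM A c s.2).2.levLe (bas_lev A s.2))
      (CoefIn.bb A hc s)
    have h2 : LevLe (n + 1 + 2 * N) (Psi p z (2 * N) (Fp c) Dl (bb A c s)) := by
      intro u hu
      have := h1.2.1 u hu
      have h6 := mm_le_self (p := p) h0 (n + 1)
      show u 0 ≤ n + 1 + 2 * N
      exact this.trans (by omega)
    have h5 := hcrd' (n + 1 + 2 * N) _ h1.2.2 h2 s'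
    refine OrdGe.mono ?_ h5
    have h7 : n + 1 + 2 * N + 1 = 2 * N + n + 2 := by ring
    rw [h7]
  have hTm : PolLe (p * (e * (n + 2))) (Thm A p f c) := by
    intro s' s
    have h1 : OrdGe 0 (Ring.inverse ((uu p (s.1 0) : ℕ) : LaurentSeries 𝒪)) := by
      obtain ⟨-, hnd⟩ := (hG p hp.out h3).2.2.2.2.2.1 (s.1 0)
      have hun : IsUnit ((uu p (s.1 0) : ℕ) : ℤ_[p]) := by
        rw [PadicInt.isUnit_iff]
        by_contra h
        have h1 : ‖(((uu p (s.1 0) : ℕ) : ℤ) : ℤ_[p])‖ < 1 := by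
          refine lt_of_le_of_ne (PadicInt.norm_le_one _) ?_
          simpa using h
        rw [PadicInt.norm_intCast_lt_one_iff] at h1
        exact hnd (by exact_mod_cast h1)
      obtain ⟨u, hu1⟩ := hun
      have h2 : ((uu p (s.1 0) : ℕ) : LaurentSeries 𝒪) =
          ((Units.map (z : ℤ_[p] →* LaurentSeries 𝒪) u : (LaurentSeries 𝒪)ˣ) :
            LaurentSeries 𝒪) := by
        rw [Units.coe_map]
        change _ = z u
        rw [hu1, map_natCast]
      rw [h2, Ring.inverse_unit, ← map_inv, Units.coe_map]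
      exact hz _
    have h2 : HasLev (p * s.1 0) (expand p (bb A (fun β => f (c β)) s.1)) :=
      hasLev_expand (bb_lev hJ hn hM A _ s.2).2
    have h5 : CoefIn (Sr 𝒪) (expand p (bb A (fun β => f (c β)) s.1)) := by
      have h6 := CoefIn.bb A hfc s.1
      have h7 : expand p (bb A (fun β => f (c β)) s.1) =
          ∑ t ∈ (bb A (fun β => f (c β)) s.1).support,
            monomial (p • t) (coeff t (bb A (fun β => f (c β)) s.1)) := by
        conv_lhs => rw [← support_sum_monomial_coeff (bb A (fun β => f (c β)) s.1)]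
        rw [map_sum]
        refine Finset.sum_congr rfl fun t _ => ?_
        rw [expand_monomial]
      rw [h7]
      exact CoefIn.sum _ _ fun t _ => CoefIn.monomial (h6 t)
    have h8 : LevLe (p * (n + 1)) (expand p (bb A (fun β => f (c β)) s.1)) :=
      h2.levLe (Nat.mul_le_mul_left _ (bas_lev A s.2))
    have h9 := OrdGe.mul h1 (hcrd _ _ h5 h8 s')
    refine OrdGe.mono ?_ h9
    rw [zero_add, neg_le_neg_iff]
    have h10 : e * (p * (n + 1) + 1) ≤ p * (e * (n + 2)) := by
      have h11 : p * (n + 1) + 1 ≤ p * (n + 2) := by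
        have : p * (n + 2) = p * (n + 1) + p := by ring
        omega
      calc e * (p * (n + 1) + 1) ≤ e * (p * (n + 2)) := Nat.mul_le_mul_left _ h11
        _ = p * (e * (n + 2)) := by ring
    exact_mod_cast h10
  have hEm : PolLe (p * (e * (2 * N + n + 2))) (Em A p z N f c Dl) := by
    intro s' s
    have h1 : LevLe (p * (2 * N)) (TJ p z (2 * N) Dl) := by
      refine Supp.sum _ _ fun j hj => Supp.C_mul _ ?_
      refine (hDl'.pow j).levLe ?_
      have := Finset.mem_range.1 hj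
      rw [mul_comm]
      exact Nat.mul_le_mul_left _ (by omega)
    have h2 : LevLe (2 * N) (psi p (TJ p z (2 * N) Dl)) := by
      refine Supp.psi h0 ?_ h1
      intro u hu
      simp only [Finsupp.smul_apply, smul_eq_mul] at hu
      exact Nat.le_of_mul_le_mul_left hu h0
    have hTS : CoefIn (Sr 𝒪) (TJ p z (2 * N) Dl) :=
      CoefIn.sum _ _ fun j _ => CoefIn.C_mul ((Dl_coefIn hDl hS).pow j) (hS.zS _)
    have h5 := h2.mul ((bb_lev hJ hn hM A (fun β => f (c β)) s.2).2.levLe (bas_lev A s.2))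
    have h6 := hcrd' _ _ ((CoefIn.psi h0 hTS).mul (CoefIn.bb A hfc s.1)) h5 s'
    refine OrdGe.mono ?_ h6
    have h7 : 2 * N + (n + 1) + 1 = 2 * N + n + 2 := by ring
    rw [h7]
  have hbig : ∀ a : ℕ, a ≤ e * (n + 2 + (N + 1) * (2 * N + n + 2)) → p * a ≤ p * polB n e N :=
    fun a ha => Nat.mul_le_mul_left _ ha
  refine ⟨PolLe.mono (hbig _ ?_) hPm, ?_⟩
  · refine Nat.mul_le_mul_left _ ?_
    have : 2 * N + n + 2 ≤ (N + 1) * (2 * N + n + 2) := Nat.le_mul_of_pos_left _ (by omega)
    omega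
  · have hdiag : PolLe 0 (Matrix.diagonal (fun s : A.Bas =>
        (p : LaurentSeries 𝒪) ^ (Lb n b - s.1 0))) := by
      intro i j
      rw [Matrix.diagonal_apply]
      split_ifs
      · have := OrdGe.pow (OrdGe.natCast (R := 𝒪) p) (Lb n b - i.1 0)
        rwa [mul_zero] at this
      · exact OrdGe.zero _
    have hsum : PolLe (N * (p * (e * (2 * N + n + 2))))
        (∑ i ∈ Finset.range N, (1 - Em A p z N f c Dl) ^ i) := by
      refine PolLe.sum _ _ fun i hi => ?_
      have h1 : PolLe (p * (e * (2 * N + n + 2))) (1 - Em A p z N f c Dl) :=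
        PolLe.sub (PolLe.mono (Nat.zero_le _) PolLe.one) hEm
      refine PolLe.mono ?_ (PolLe.pow h1 i)
      exact Nat.mul_le_mul_right _ (Finset.mem_range.1 hi).le
    have htot := PolLe.mul (PolLe.mul hTm hdiag) hsum
    unfold Fm
    refine PolLe.mono ?_ htot
    have h1 : p * (e * (n + 2)) + 0 + N * (p * (e * (2 * N + n + 2))) =
        p * (e * (n + 2 + N * (2 * N + n + 2))) := by ring
    rw [h1]
    refine hbig _ (Nat.mul_le_mul_left _ ?_)
    have : N * (2 * N + n + 2) ≤ (N + 1) * (2 * N + n + 2) := Nat.mul_le_mul_right _ (by omega)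
    omega

end Pool.Agent.Helper95_CM.H77
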